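import Mathlib

namespace Pool.Agent.H.MP_34b196_pr

open MeasureTheory

variable {X : Type}

/-- `∏_y s_y ^ f(y)` -/
noncomputable def mono (s : X → ℝ) (f : X →₀ ℕ) : ℝ := f.prod fun y k => s y ^ k

/-- the generating function of the offspring laws `μ` -/
noncomputable def G [MeasurableSpace (X →₀ ℕ)] (μ : X → Measure (X →₀ ℕ)) (s : X → ℝ) (x : X) : ℝ :=
  ∫ f, mono s f ∂ μ x

/-- generation sizes started from one individual of type `x`; `ξ (n, y, i)` is the offspring of
the `i`-th individual of type `y` in generation `n` -/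
noncomputable def Z {Ω : Type} (ξ : ℕ × X × ℕ → Ω → X →₀ ℕ) (x : X) : ℕ → Ω → X →₀ ℕ
  | 0, _ => Finsupp.single x 1
  | n + 1, ω => (Z ξ x n ω).sum fun y k => ∑ i ∈ Finset.range k, ξ (n, y, i) ω

end Pool.Agent.H.MP_34b196_pr
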