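import Mathlib
import Pool.Agent.H.MP_34b196_pr.Defs

namespace Pool.Agent.H.MP_34b196_pr

open MeasureTheory Filter Topology Set

variable {X : Type}

structure AM (φ : (X → ℝ) → ℝ) : Prop where
  nn : ∀ a, 0 ≤ a → 0 ≤ φ a
  mo : ∀ a b, 0 ≤ a → a ≤ b → φ a ≤ φ b
  su : ∀ a b a' b', 0 ≤ a → a ≤ b → a ≤ a' → b - a ≤ b' - a' → φ b - φ a ≤ φ b' - φ a'

lemma AM.mul {φ ψ : (X → ℝ) → ℝ} (h : AM φ) (h' : AM ψ) : AM (φ * ψ) := by
  refine ⟨fun a ha => mul_nonneg (h.nn a ha) (h'.nn a ha), fun a b ha hab =>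
    mul_le_mul (h.mo a b ha hab) (h'.mo a b ha hab) (h'.nn a ha) (h.nn b (ha.trans hab)),
    fun a b a' b' ha hab haa hd => ?_⟩
  have hbb : b ≤ b' := fun y => by
    have := hd y; have := haa y
    simp only [Pi.sub_apply] at *; linarith
  have e1 := mul_le_mul (h.mo b b' (ha.trans hab) hbb) (h'.su a b a' b' ha hab haa hd)
    (sub_nonneg.2 (h'.mo a b ha hab)) (h.nn b' ((ha.trans hab).trans hbb))
  have e2 := mul_le_mul (h.su a b a' b' ha hab haa hd) (h'.mo a a' ha haa) (h'.nn a ha)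
    ((sub_nonneg.2 (h.mo a b ha hab)).trans (h.su a b a' b' ha hab haa hd))
  simp only [Pi.mul_apply]
  linarith

lemma AM.one : AM (1 : (X → ℝ) → ℝ) := ⟨by simp, by simp, by simp⟩

lemma AM.coord (y : X) : AM fun s : X → ℝ => s y :=
  ⟨fun _ ha => ha y, fun _ _ _ h => h y, fun _ _ _ _ _ _ _ h => h y⟩

lemma AM.pow {φ : (X → ℝ) → ℝ} (h : AM φ) (k : ℕ) : AM (φ ^ k) := by
  induction k with
  | zero => simpa using AM.one
  | succ k ih => rw [pow_succ]; exact ih.mul h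

lemma am_mono (f : X →₀ ℕ) : AM fun s => mono s f := by
  have : (fun s => mono s f) = ∏ y ∈ f.support, (fun s : X → ℝ => s y) ^ f y := by
    funext s; simp [mono, Finsupp.prod]
  rw [this]
  exact Finset.prod_induction _ AM (fun _ _ => AM.mul) AM.one fun y _ => (AM.coord y).pow _

lemma mono_mem {s : X → ℝ} (hs : s ∈ Icc (0 : X → ℝ) 1) (f : X →₀ ℕ) : mono s f ∈ Icc (0 : ℝ) 1 :=
  ⟨(am_mono f).nn s hs.1, ((am_mono f).mo s 1 hs.1 hs.2).trans (by simp [mono, Finsupp.prod])⟩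

lemma mono_norm {s : X → ℝ} (hs : s ∈ Icc (0 : X → ℝ) 1) (f : X →₀ ℕ) : ‖mono s f‖ ≤ 1 := by
  rw [Real.norm_of_nonneg (mono_mem hs f).1]; exact (mono_mem hs f).2

variable [MeasurableSpace (X →₀ ℕ)] [DiscreteMeasurableSpace (X →₀ ℕ)]
  {μ : X → Measure (X →₀ ℕ)} [∀ x, IsProbabilityMeasure (μ x)]

lemma int_mono {s : X → ℝ} (hs : s ∈ Icc (0 : X → ℝ) 1) (x : X) : Integrable (mono s) (μ x) :=
  (integrable_const (1 : ℝ)).mono' Measurable.of_discrete.aestronglyMeasurable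
    (Eventually.of_forall (mono_norm hs))

lemma G_mem {s : X → ℝ} (hs : s ∈ Icc (0 : X → ℝ) 1) : G μ s ∈ Icc (0 : X → ℝ) 1 := by
  refine ⟨fun x => integral_nonneg fun f => (mono_mem hs f).1, fun x => ?_⟩
  have := integral_mono (int_mono (μ := μ) hs x) (integrable_const (1 : ℝ)) fun f => (mono_mem hs f).2
  simpa [G] using this

lemma G_mo {a b : X → ℝ} (ha : a ∈ Icc (0 : X → ℝ) 1) (hb : b ∈ Icc (0 : X → ℝ) 1) (h : a ≤ b) :
    G μ a ≤ G μ b := fun x =>
  integral_mono (int_mono ha x) (int_mono hb x) fun f => (am_mono f).mo a b ha.1 h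

lemma G_su {a b a' b' : X → ℝ} (ha : a ∈ Icc (0 : X → ℝ) 1) (hb : b ∈ Icc (0 : X → ℝ) 1)
    (ha' : a' ∈ Icc (0 : X → ℝ) 1) (hb' : b' ∈ Icc (0 : X → ℝ) 1) (h1 : a ≤ b) (h2 : a ≤ a')
    (h3 : b - a ≤ b' - a') (x : X) : G μ b x - G μ a x ≤ G μ b' x - G μ a' x := by
  simp only [G]
  rw [← integral_sub (int_mono hb x) (int_mono ha x), ← integral_sub (int_mono hb' x) (int_mono ha' x)]
  exact integral_mono ((int_mono hb x).sub (int_mono ha x)) ((int_mono hb' x).sub (int_mono ha' x))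
    fun f => (am_mono f).su a b a' b' ha.1 h1 h2 h3

variable [Countable X]

lemma G_cont : ContinuousOn (G μ) (Icc (0 : X → ℝ) 1) := by
  refine continuousOn_pi.2 fun x => continuousOn_of_dominated (bound := fun _ => 1)
    (fun s _ => Measurable.of_discrete.aestronglyMeasurable)
    (fun s hs => Eventually.of_forall (mono_norm hs)) (integrable_const _)
    (Eventually.of_forall fun f => Continuous.continuousOn ?_)
  unfold mono Finsupp.prod
  fun_prop

lemma G_lim {u : ℕ → X → ℝ} {v : X → ℝ} (hu : ∀ n, u n ∈ Icc (0 : X → ℝ) 1)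
    (h : Tendsto u atTop (𝓝 v)) : Tendsto (fun n => G μ (u n)) atTop (𝓝 (G μ v)) :=
  (G_cont v (isClosed_Icc.mem_of_tendsto h (Eventually.of_forall hu))).tendsto.comp
    (tendsto_nhdsWithin_iff.2 ⟨h, Eventually.of_forall hu⟩)

open Classical in
variable (μ) in
noncomputable def it (A : Set X) (w : X → ℝ) : ℕ → X → ℝ
  | 0 => fun y => if y ∈ A then 0 else w y
  | k + 1 => fun y => if y ∈ A then G μ (it A w k) y else w y

variable {A : Set X} {w w' : X → ℝ}

omit [Countable X] in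
lemma it_mem (hw : w ∈ Icc (0 : X → ℝ) 1) (k : ℕ) : it μ A w k ∈ Icc (0 : X → ℝ) 1 := by
  induction k with
  | zero =>
    constructor <;> intro y <;> simp only [it] <;> split_ifs
    exacts [le_rfl, hw.1 y, zero_le_one, hw.2 y]
  | succ k ih =>
    constructor <;> intro y <;> simp only [it] <;> split_ifs
    exacts [(G_mem ih).1 y, hw.1 y, (G_mem ih).2 y, hw.2 y]

omit [Countable X] in
lemma it_succ (hw : w ∈ Icc (0 : X → ℝ) 1) (k : ℕ) : it μ A w k ≤ it μ A w (k + 1) := by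
  induction k with
  | zero =>
    intro y; simp only [it]; split_ifs
    exacts [(G_mem (it_mem (μ := μ) (A := A) hw 0)).1 y, le_rfl]
  | succ k ih =>
    intro y; rw [it, it]; simp only; split_ifs
    exacts [G_mo (it_mem hw _) (it_mem hw _) ih y, le_rfl]

omit [Countable X] in
lemma it_mo (hw : w ∈ Icc (0 : X → ℝ) 1) (hw' : w' ∈ Icc (0 : X → ℝ) 1) (h : w ≤ w') (k : ℕ) :
    it μ A w k ≤ it μ A w' k := by
  induction k with
  | zero => intro y; simp only [it]; split_ifs; exacts [le_rfl, h y]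
  | succ k ih =>
    intro y; simp only [it]; split_ifs
    exacts [G_mo (it_mem hw _) (it_mem hw' _) ih y, h y]

omit [Countable X] [DiscreteMeasurableSpace (X →₀ ℕ)] [∀ x, IsProbabilityMeasure (μ x)] in
lemma it_off {y : X} (hy : y ∉ A) (k : ℕ) : it μ A w k y = w y := by
  cases k <;> simp [it, hy]

omit [Countable X] in
lemma it_su (hw : w ∈ Icc (0 : X → ℝ) 1) (hw' : w' ∈ Icc (0 : X → ℝ) 1) (h : w ≤ w') (j k : ℕ) :
    it μ A w (k + j) - it μ A w k ≤ it μ A w' (k + j) - it μ A w' k := by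
  induction k with
  | zero =>
    intro y
    by_cases hy : y ∈ A
    · simpa [it, hy] using it_mo hw hw' h j y
    · simp [it_off hy]
  | succ k ih =>
    intro y
    by_cases hy : y ∈ A
    · rw [Nat.add_right_comm]
      simp only [it, hy, if_true, Pi.sub_apply]
      exact G_su (it_mem hw _) (it_mem hw _) (it_mem hw' _) (it_mem hw' _)
        (monotone_nat_of_le_succ (it_succ hw) (Nat.le_add_right _ _)) (it_mo hw hw' h k) ih y
    · simp [it_off hy]

variable (μ) in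
noncomputable def mm (A : Set X) (w : X → ℝ) : X → ℝ := fun y => ⨆ k, it μ A w k y

omit [Countable X] in
lemma it_lim (hw : w ∈ Icc (0 : X → ℝ) 1) : Tendsto (it μ A w) atTop (𝓝 (mm μ A w)) :=
  tendsto_pi_nhds.2 fun y => tendsto_atTop_ciSup
    (fun _ _ h => monotone_nat_of_le_succ (it_succ hw) h y)
    ⟨1, by rintro _ ⟨k, rfl⟩; exact (it_mem hw k).2 y⟩

lemma mm_fix (hw : w ∈ Icc (0 : X → ℝ) 1) {y : X} (hy : y ∈ A) : G μ (mm μ A w) y = mm μ A w y := by
  have h1 := tendsto_pi_nhds.1 (G_lim (μ := μ) (it_mem (μ := μ) (A := A) hw) (it_lim hw)) y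
  have h2 := (tendsto_pi_nhds.1 (it_lim (μ := μ) (A := A) hw) y).comp (tendsto_add_atTop_nat 1)
  exact tendsto_nhds_unique h1 (h2.congr fun k => by simp [it, hy])

lemma mm_cont (hw : w ∈ Icc (0 : X → ℝ) 1) (x : X) :
    ContinuousOn (fun t : ℝ => mm μ A (t • w) x) (Icc 0 1) := by
  have hm : ∀ t ∈ Icc (0 : ℝ) 1, t • w ∈ Icc (0 : X → ℝ) 1 ∧ t • w ≤ w := fun t ht => by
    have h1 : t • w ≤ w := fun y => by
      have := hw.1 y
      simp only [Pi.smul_apply, smul_eq_mul, Pi.zero_apply] at *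
      nlinarith [ht.2]
    exact ⟨⟨smul_nonneg ht.1 hw.1, h1.trans hw.2⟩, h1⟩
  have hc : ∀ k, ContinuousOn (fun t : ℝ => it μ A (t • w) k) (Icc 0 1) := by
    intro k
    induction k with
    | zero =>
      refine continuousOn_pi.2 fun y => ?_
      simp only [it]; split_ifs <;> fun_prop
    | succ k ih =>
      refine continuousOn_pi.2 fun y => ?_
      simp only [it]; split_ifs
      · exact continuousOn_pi.1 (G_cont.comp ih fun t ht => it_mem (hm t ht).1 k) y
      · fun_prop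
  refine TendstoUniformlyOn.continuousOn (F := fun k t => it μ A (t • w) k x) (p := atTop) ?_
    (Frequently.of_forall fun k => continuousOn_pi.1 (hc k) x)
  rw [Metric.tendstoUniformlyOn_iff]
  intro ε hε
  have h1 := tendsto_pi_nhds.1 (it_lim (μ := μ) (A := A) hw) x
  filter_upwards [h1.eventually (lt_mem_nhds (show mm μ A w x - ε < mm μ A w x by linarith))]
    with k hk t ht
  have h2 := tendsto_pi_nhds.1 (it_lim (μ := μ) (A := A) (hm t ht).1) x
  have a1 : mm μ A (t • w) x - it μ A (t • w) k x ≤ mm μ A w x - it μ A w k x :=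
    le_of_tendsto_of_tendsto' ((h2.comp (tendsto_add_atTop_nat k)).sub_const _)
      ((h1.comp (tendsto_add_atTop_nat k)).sub_const _) fun j => by
        simpa [add_comm j] using it_su (hm t ht).1 hw (hm t ht).2 j k x
  have a2 : it μ A (t • w) k x ≤ mm μ A (t • w) x :=
    ge_of_tendsto h2 ((eventually_ge_atTop k).mono fun j hj =>
      monotone_nat_of_le_succ (it_succ (hm t ht).1) hj x)
  rw [Real.dist_eq, abs_of_nonneg (by linarith)]
  linarith

lemma local_sol {ρ : ℕ → X → ℝ} (hρ : ∀ k, ρ k ∈ Icc (0 : X → ℝ) 1) (h0 : ∀ y ∈ A, ρ 0 y = 0)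
    (hs : ∀ k, ρ (k + 1) = G μ (ρ k)) (hle : ∀ k, ρ k ≤ w) (hl : Tendsto ρ atTop (𝓝 w)) {x : X}
    {c : ℝ} (hc0 : ∀ k, (G μ)^[k] 0 x ≤ c) (hc1 : c ≤ w x) :
    ∃ s ∈ Icc (0 : X → ℝ) 1, s ≤ w ∧ s x = c ∧ ∀ y ∈ A, G μ s y = s y := by
  have hw : w ∈ Icc (0 : X → ℝ) 1 := isClosed_Icc.mem_of_tendsto hl (Eventually.of_forall hρ)
  have hfix : G μ w = w := tendsto_nhds_unique (G_lim hρ hl)
    ((hl.comp (tendsto_add_atTop_nat 1)).congr hs)
  have z : (0 : X → ℝ) ∈ Icc (0 : X → ℝ) 1 := ⟨le_rfl, zero_le_one⟩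
  have e0 : mm μ A ((0 : ℝ) • w) x ≤ c := by
    rw [zero_smul]
    refine ciSup_le fun k => le_trans ?_ (hc0 k)
    have : ∀ k, (G μ)^[k] 0 ∈ Icc (0 : X → ℝ) 1 ∧ it μ A 0 k ≤ (G μ)^[k] 0 := by
      intro k
      induction k with
      | zero => exact ⟨z, fun y => by simp [it]⟩
      | succ k ih =>
        rw [Function.iterate_succ_apply']
        refine ⟨G_mem ih.1, fun y => ?_⟩
        simp only [it]; split_ifs
        exacts [G_mo (it_mem z k) ih.1 ih.2 y, (G_mem ih.1).1 y]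
    exact (this k).2 x
  have e1 : c ≤ mm μ A ((1 : ℝ) • w) x := by
    rw [one_smul]
    refine hc1.trans (le_of_tendsto_of_tendsto' hl (it_lim hw) (fun k => ?_) x)
    induction k with
    | zero => intro y; simp only [it]; split_ifs with h; exacts [(h0 y h).le, hle 0 y]
    | succ k ih =>
      intro y; simp only [it]; split_ifs with h
      · rw [hs]; exact G_mo (hρ k) (it_mem hw k) ih y
      · exact hle _ y
  obtain ⟨t, ht, htc⟩ := intermediate_value_Icc zero_le_one (mm_cont (μ := μ) (A := A) hw x) ⟨e0, e1⟩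
  have h1 : t • w ≤ w := fun y => by
    have := hw.1 y
    simp only [Pi.smul_apply, smul_eq_mul, Pi.zero_apply] at *
    nlinarith [ht.2]
  have htw : t • w ∈ Icc (0 : X → ℝ) 1 := ⟨smul_nonneg ht.1 hw.1, h1.trans hw.2⟩
  refine ⟨mm μ A (t • w), isClosed_Icc.mem_of_tendsto (it_lim htw) (Eventually.of_forall (it_mem htw)),
    le_of_tendsto' (it_lim htw) fun k => ?_, htc, fun y hy => mm_fix htw hy⟩
  induction k with
  | zero => intro y; simp only [it]; split_ifs; exacts [hw.1 y, h1 y]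
  | succ k ih =>
    intro y; simp only [it]; split_ifs
    · exact (G_mo (it_mem htw k) hw ih y).trans (congrFun hfix y).le
    · exact h1 y

lemma global_sol {A : ℕ → Set X} (hA : ∀ y, ∀ᶠ n in atTop, y ∈ A n) {w : ℕ → X → ℝ} {u : X → ℝ}
    (hw : Tendsto w atTop (𝓝 u)) {x : X} {c : ℝ}
    (h : ∀ n, ∃ s ∈ Icc (0 : X → ℝ) 1, s ≤ w n ∧ s x = c ∧ ∀ y ∈ A n, G μ s y = s y) :
    ∃ s ∈ Icc (0 : X → ℝ) 1, s ≤ u ∧ s x = c ∧ G μ s = s := by
  choose s hs h1 h2 h3 using h
  obtain ⟨v, hv, φ, hφ, hl⟩ := isCompact_Icc.tendsto_subseq hs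
  refine ⟨v, hv, le_of_tendsto_of_tendsto' hl (hw.comp hφ.tendsto_atTop) fun n => h1 _, ?_,
    funext fun y => ?_⟩
  · exact tendsto_nhds_unique (tendsto_pi_nhds.1 hl x) (tendsto_const_nhds.congr fun n => (h2 _).symm)
  · refine tendsto_nhds_unique (tendsto_pi_nhds.1 (G_lim (fun n => hs (φ n)) hl) y)
      ((tendsto_pi_nhds.1 hl y).congr' ?_)
    filter_upwards [hφ.tendsto_atTop.eventually (hA y)] with n hn
    exact (h3 _ y hn).symm

end Pool.Agent.H.MP_34b196_pr
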