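import Mathlib
import Pool.Agent.H.MP_34b196_pr.A

namespace Pool.Agent.H.MP_34b196_pr.Low

open MeasureTheory Filter Topology Set

variable {X : Type} [MeasurableSpace (X →₀ ℕ)] [DiscreteMeasurableSpace (X →₀ ℕ)]
  {μ : X → Measure (X →₀ ℕ)} [∀ x, IsProbabilityMeasure (μ x)] [Countable X]

open Classical in
variable (μ) in
noncomputable def it (b : X → ℝ) (A : Set X) (w : X → ℝ) : ℕ → X → ℝ
  | 0 => fun y => if y ∈ A then b y else w y
  | k + 1 => fun y => if y ∈ A then G μ (it b A w k) y else w y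

variable {b : X → ℝ} {A : Set X} {w w' : X → ℝ}

omit [Countable X] in
lemma it_mem (hb : b ∈ Icc (0 : X → ℝ) 1) (hw : w ∈ Icc (0 : X → ℝ) 1) (k : ℕ) :
    it μ b A w k ∈ Icc (0 : X → ℝ) 1 := by
  induction k with
  | zero =>
    constructor <;> intro y <;> simp only [it] <;> split_ifs
    exacts [hb.1 y, hw.1 y, hb.2 y, hw.2 y]
  | succ k ih =>
    constructor <;> intro y <;> simp only [it] <;> split_ifs
    exacts [(G_mem ih).1 y, hw.1 y, (G_mem ih).2 y, hw.2 y]

omit [Countable X] in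
lemma it_succ (hb : b ∈ Icc (0 : X → ℝ) 1) (hf : G μ b = b) (hw : w ∈ Icc (0 : X → ℝ) 1) (hbw : b ≤ w)
    (k : ℕ) : it μ b A w k ≤ it μ b A w (k + 1) := by
  induction k with
  | zero =>
    intro y; rw [it, it]; simp only; split_ifs
    · refine (congrFun hf y).symm.le.trans (G_mo hb (it_mem hb hw 0) (fun z => ?_) y)
      simp only [it]; split_ifs; exacts [le_rfl, hbw z]
    · exact le_rfl
  | succ k ih =>
    intro y; rw [it, it]; simp only; split_ifs
    exacts [G_mo (it_mem hb hw _) (it_mem hb hw _) ih y, le_rfl]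

omit [Countable X] in
lemma it_mo (hb : b ∈ Icc (0 : X → ℝ) 1) (hw : w ∈ Icc (0 : X → ℝ) 1) (hw' : w' ∈ Icc (0 : X → ℝ) 1)
    (h : w ≤ w') (k : ℕ) : it μ b A w k ≤ it μ b A w' k := by
  induction k with
  | zero => intro y; simp only [it]; split_ifs; exacts [le_rfl, h y]
  | succ k ih =>
    intro y; simp only [it]; split_ifs
    exacts [G_mo (it_mem hb hw _) (it_mem hb hw' _) ih y, h y]

omit [Countable X] [DiscreteMeasurableSpace (X →₀ ℕ)] [∀ x, IsProbabilityMeasure (μ x)] in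
lemma it_off {y : X} (hy : y ∉ A) (k : ℕ) : it μ b A w k y = w y := by
  cases k <;> simp [it, hy]

omit [Countable X] in
lemma it_su (hb : b ∈ Icc (0 : X → ℝ) 1) (hf : G μ b = b) (hw : w ∈ Icc (0 : X → ℝ) 1) (hbw : b ≤ w)
    (hw' : w' ∈ Icc (0 : X → ℝ) 1) (h : w ≤ w') (j k : ℕ) :
    it μ b A w (k + j) - it μ b A w k ≤ it μ b A w' (k + j) - it μ b A w' k := by
  induction k with
  | zero =>
    intro y
    by_cases hy : y ∈ A
    · simpa [it, hy] using it_mo hb hw hw' h j y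
    · simp [it_off hy]
  | succ k ih =>
    intro y
    by_cases hy : y ∈ A
    · rw [Nat.add_right_comm]
      simp only [it, hy, if_true, Pi.sub_apply]
      exact G_su (it_mem hb hw _) (it_mem hb hw _) (it_mem hb hw' _) (it_mem hb hw' _)
        (monotone_nat_of_le_succ (it_succ hb hf hw hbw) (Nat.le_add_right _ _)) (it_mo hb hw hw' h k) ih y
    · simp [it_off hy]

variable (μ) in
noncomputable def mm (b : X → ℝ) (A : Set X) (w : X → ℝ) : X → ℝ := fun y => ⨆ k, it μ b A w k y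

omit [Countable X] in
lemma it_lim (hb : b ∈ Icc (0 : X → ℝ) 1) (hf : G μ b = b) (hw : w ∈ Icc (0 : X → ℝ) 1) (hbw : b ≤ w) :
    Tendsto (it μ b A w) atTop (𝓝 (mm μ b A w)) :=
  tendsto_pi_nhds.2 fun y => tendsto_atTop_ciSup
    (fun _ _ h => monotone_nat_of_le_succ (it_succ hb hf hw hbw) h y)
    ⟨1, by rintro _ ⟨k, rfl⟩; exact (it_mem hb hw k).2 y⟩

omit [MeasurableSpace (X →₀ ℕ)] [DiscreteMeasurableSpace (X →₀ ℕ)] [Countable X] in
lemma seg (hb : b ∈ Icc (0 : X → ℝ) 1) (hw : w ∈ Icc (0 : X → ℝ) 1) (hbw : b ≤ w) {t : ℝ}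
    (ht : t ∈ Icc (0 : ℝ) 1) :
    b + t • (w - b) ∈ Icc (0 : X → ℝ) 1 ∧ b ≤ b + t • (w - b) ∧ b + t • (w - b) ≤ w := by
  have h1 : b + t • (w - b) ≤ w := fun y => by
    have := hbw y
    simp only [Pi.add_apply, Pi.sub_apply, Pi.smul_apply, smul_eq_mul]
    nlinarith [ht.2]
  have h2 : b ≤ b + t • (w - b) := le_add_of_nonneg_right (smul_nonneg ht.1 (sub_nonneg.2 hbw))
  exact ⟨⟨hb.1.trans h2, h1.trans hw.2⟩, h2, h1⟩

lemma mm_cont (hb : b ∈ Icc (0 : X → ℝ) 1) (hf : G μ b = b) (hw : w ∈ Icc (0 : X → ℝ) 1) (hbw : b ≤ w)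
    (x : X) : ContinuousOn (fun t : ℝ => mm μ b A (b + t • (w - b)) x) (Icc 0 1) := by
  have hc : ∀ k, ContinuousOn (fun t : ℝ => it μ b A (b + t • (w - b)) k) (Icc 0 1) := by
    intro k
    induction k with
    | zero =>
      refine continuousOn_pi.2 fun y => ?_
      simp only [it]; split_ifs <;> fun_prop
    | succ k ih =>
      refine continuousOn_pi.2 fun y => ?_
      simp only [it]; split_ifs
      · exact continuousOn_pi.1 (G_cont.comp ih fun t ht => it_mem hb (seg hb hw hbw ht).1 k) y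
      · fun_prop
  refine TendstoUniformlyOn.continuousOn (F := fun k t => it μ b A (b + t • (w - b)) k x) (p := atTop) ?_
    (Frequently.of_forall fun k => continuousOn_pi.1 (hc k) x)
  rw [Metric.tendstoUniformlyOn_iff]
  intro ε hε
  have h1 := tendsto_pi_nhds.1 (it_lim (μ := μ) (A := A) hb hf hw hbw) x
  filter_upwards [h1.eventually (lt_mem_nhds (show mm μ b A w x - ε < mm μ b A w x by linarith))]
    with k hk t ht
  obtain ⟨m1, m2, m3⟩ := seg hb hw hbw ht
  have h2 := tendsto_pi_nhds.1 (it_lim (μ := μ) (A := A) hb hf m1 m2) x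
  have a1 : mm μ b A (b + t • (w - b)) x - it μ b A (b + t • (w - b)) k x ≤
      mm μ b A w x - it μ b A w k x :=
    le_of_tendsto_of_tendsto' ((h2.comp (tendsto_add_atTop_nat k)).sub_const _)
      ((h1.comp (tendsto_add_atTop_nat k)).sub_const _) fun j => by
        simpa [add_comm j] using it_su hb hf m1 m2 hw m3 j k x
  have a2 : it μ b A (b + t • (w - b)) k x ≤ mm μ b A (b + t • (w - b)) x :=
    ge_of_tendsto h2 ((eventually_ge_atTop k).mono fun j hj =>
      monotone_nat_of_le_succ (it_succ hb hf m1 m2) hj x)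
  rw [Real.dist_eq, abs_of_nonneg (by linarith)]
  linarith

lemma local_sol (hb : b ∈ Icc (0 : X → ℝ) 1) (hf : G μ b = b) (hbw : b ≤ w) {ρ : ℕ → X → ℝ}
    (hρ : ∀ k, ρ k ∈ Icc (0 : X → ℝ) 1) (h0 : ∀ y ∈ A, ρ 0 y = 0)
    (hs : ∀ k, ρ (k + 1) = G μ (ρ k)) (hle : ∀ k, ρ k ≤ w) (hl : Tendsto ρ atTop (𝓝 w)) {x : X}
    {c : ℝ} (hc0 : b x ≤ c) (hc1 : c ≤ w x) :
    ∃ s ∈ Icc (0 : X → ℝ) 1, b ≤ s ∧ s x = c ∧ ∀ y ∈ A, G μ s y = s y := by
  have hw : w ∈ Icc (0 : X → ℝ) 1 := isClosed_Icc.mem_of_tendsto hl (Eventually.of_forall hρ)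
  have e0 : mm μ b A (b + (0 : ℝ) • (w - b)) x ≤ c := by
    rw [zero_smul, add_zero]
    have : ∀ k, it μ b A b k = b := fun k => by
      induction k with
      | zero => funext y; simp [it]
      | succ k ih => funext y; simp [it, ih, hf]
    exact ciSup_le fun k => by rw [this k]; exact hc0
  have e1 : c ≤ mm μ b A (b + (1 : ℝ) • (w - b)) x := by
    rw [one_smul, add_sub_cancel]
    refine hc1.trans (le_of_tendsto_of_tendsto' hl (it_lim hb hf hw hbw) (fun k => ?_) x)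
    induction k with
    | zero => intro y; simp only [it]; split_ifs with h; exacts [(h0 y h).le.trans (hb.1 y), hle 0 y]
    | succ k ih =>
      intro y; simp only [it]; split_ifs with h
      · rw [hs]; exact G_mo (hρ k) (it_mem hb hw k) ih y
      · exact hle _ y
  obtain ⟨t, ht, htc⟩ := intermediate_value_Icc zero_le_one (mm_cont (μ := μ) (A := A) hb hf hw hbw x)
    ⟨e0, e1⟩
  obtain ⟨m1, m2, -⟩ := seg hb hw hbw ht
  have hl' := it_lim (μ := μ) (A := A) hb hf m1 m2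
  refine ⟨_, isClosed_Icc.mem_of_tendsto hl' (Eventually.of_forall (it_mem hb m1)),
    ge_of_tendsto' hl' fun k => le_trans (fun y => ?_)
      (monotone_nat_of_le_succ (it_succ hb hf m1 m2) (Nat.zero_le k)), htc, fun y hy => ?_⟩
  · simp only [it]; split_ifs; exacts [le_rfl, m2 y]
  · have h1 := tendsto_pi_nhds.1 (G_lim (μ := μ) (it_mem (μ := μ) (A := A) hb m1) hl') y
    have h2 := (tendsto_pi_nhds.1 hl' y).comp (tendsto_add_atTop_nat 1)
    exact tendsto_nhds_unique h1 (h2.congr fun k => by simp [it, hy])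

lemma global_sol (hb : b ∈ Icc (0 : X → ℝ) 1) (hf : G μ b = b) {A : ℕ → Set X}
    (hA : ∀ y, b y < 1 → ∀ᶠ n in atTop, y ∈ A n) {x : X} {c : ℝ}
    (h : ∀ n, ∃ s ∈ Icc (0 : X → ℝ) 1, b ≤ s ∧ s x = c ∧ ∀ y ∈ A n, G μ s y = s y) :
    ∃ s ∈ Icc (0 : X → ℝ) 1, s x = c ∧ G μ s = s := by
  choose s hs h1 h2 h3 using h
  obtain ⟨v, hv, φ, hφ, hl⟩ := isCompact_Icc.tendsto_subseq hs
  have hbv : b ≤ v := ge_of_tendsto' hl fun n => h1 _
  refine ⟨v, hv, ?_, funext fun y => ?_⟩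
  · exact tendsto_nhds_unique (tendsto_pi_nhds.1 hl x) (tendsto_const_nhds.congr fun n => (h2 _).symm)
  · by_cases hy : b y < 1
    · refine tendsto_nhds_unique (tendsto_pi_nhds.1 (G_lim (fun n => hs (φ n)) hl) y)
        ((tendsto_pi_nhds.1 hl y).congr' ?_)
      filter_upwards [hφ.tendsto_atTop.eventually (hA y hy)] with n hn
      exact (h3 _ y hn).symm
    · have a1 := G_mo (μ := μ) hb hv hbv y
      have a2 : G μ v y ≤ 1 := (G_mem hv).2 y
      have a3 : v y ≤ 1 := hv.2 y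
      have a4 := hbv y
      rw [hf] at a1
      linarith

end Pool.Agent.H.MP_34b196_pr.Low
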