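import Mathlib
import Pool.Agent.H.MP_34b196_pr.Defs

namespace Pool.Agent.H.MP_34b196_pr

open MeasureTheory Filter

variable {X : Type} [MeasurableSpace (X →₀ ℕ)]

/-- joint law of the independent offspring variables, the one indexed by `(n, y, i)` having law `μ y` -/
noncomputable def law (μ : X → Measure (X →₀ ℕ)) : Measure (ℕ × X × ℕ → X →₀ ℕ) :=
  Measure.infinitePi fun i => μ i.2.1

/-- probability of extinction in `A` from one individual at `x` -/
noncomputable def qq (μ : X → Measure (X →₀ ℕ)) (A : Set X) (x : X) : ℝ :=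
  (law μ).real {ω | ∀ᶠ n in atTop, ∀ y ∈ A, Z (fun i ω => ω i) x n ω y = 0}

/-- fixed points of the generating function in `[0,1]^X` -/
def Fix (μ : X → Measure (X →₀ ℕ)) : Set (X → ℝ) := {s | s ∈ Set.Icc (0 : X → ℝ) 1 ∧ G μ s = s}

/-- extinction probability vectors -/
def Ext (μ : X → Measure (X →₀ ℕ)) : Set (X → ℝ) := Set.range (qq μ)

/-- every site is reached from every site along steps that carry a child with positive probability -/
def Irred (μ : X → Measure (X →₀ ℕ)) : Prop :=
  ∀ x y, Relation.ReflTransGen (fun a b => μ a {f | f b ≠ 0} ≠ 0) x y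

end Pool.Agent.H.MP_34b196_pr
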