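import Mathlib
import Pool.Agent.H.MP_34b196_pr.A2
import Pool.Agent.H.MP_34b196_pr.Defs2

namespace Pool.Agent.H.MP_34b196_pr.B

open MeasureTheory ProbabilityTheory Filter Topology Set Pool.Agent.H.MP_34b196_pr

section
variable {X : Type}

lemma mono_add (s : X → ℝ) (f g : X →₀ ℕ) : mono s (f + g) = mono s f * mono s g :=
  Finsupp.prod_add_index' (by simp) (by simp [pow_add])

lemma mono_sum {ι : Type} (s : X → ℝ) (t : Finset ι) (f : ι → X →₀ ℕ) :
    mono s (∑ i ∈ t, f i) = ∏ i ∈ t, mono s (f i) := by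
  classical
  induction t using Finset.induction_on with
  | empty => simp [mono]
  | insert a t ha ih => rw [Finset.sum_insert ha, Finset.prod_insert ha, mono_add, ih]

lemma mono_one (f : X →₀ ℕ) : mono 1 f = 1 := by simp [mono, Finsupp.prod]

open Classical in
lemma mono_kill (A : Set X) (v : X → ℝ) (f : X →₀ ℕ) :
    mono (fun y => if y ∈ A then 0 else v y) f = if ∀ y ∈ A, f y = 0 then mono v f else 0 := by
  split_ifs with h
  · refine Finset.prod_congr rfl fun y hy => ?_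
    simp only [if_neg fun hA => (Finsupp.mem_support_iff.1 hy) (h y hA)]
  · push Not at h
    obtain ⟨y, hy, hf⟩ := h
    exact Finset.prod_eq_zero (Finsupp.mem_support_iff.2 hf) (by simp [hy, hf])

variable [Countable X] [MeasurableSpace (X →₀ ℕ)] [DiscreteMeasurableSpace (X →₀ ℕ)]
  {Ω : Type} [mΩ : MeasurableSpace Ω] {P : Measure Ω} [IsProbabilityMeasure P]
  {μ : X → Measure (X →₀ ℕ)} [∀ x, IsProbabilityMeasure (μ x)] {ξ : ℕ × X × ℕ → Ω → X →₀ ℕ}

/-- the σ-algebra of the offspring variables with index in `S` -/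
def sig (ξ : ℕ × X × ℕ → Ω → X →₀ ℕ) (S : Set (ℕ × X × ℕ)) : MeasurableSpace Ω :=
  ⨆ i ∈ S, MeasurableSpace.comap (ξ i) inferInstance

noncomputable def step (ξ : ℕ × X × ℕ → Ω → X →₀ ℕ) (n : ℕ) (z : X →₀ ℕ) (ω : Ω) : X →₀ ℕ :=
  z.sum fun y k => ∑ i ∈ Finset.range k, ξ (n, y, i) ω

omit mΩ in
lemma step_meas {S : Set (ℕ × X × ℕ)} {n : ℕ} (h : ∀ y i, (n, y, i) ∈ S) (z : X →₀ ℕ) :
    Measurable[sig ξ S] (step ξ n z) := by
  letI := sig ξ S
  refine Finset.measurable_fun_sum _ fun y _ => Finset.measurable_fun_sum _ fun i _ => ?_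
  exact measurable_iff_comap_le.2 (le_iSup₂_of_le (f := fun i (_ : i ∈ S) =>
    MeasurableSpace.comap (ξ i) inferInstance) (n, y, i) (h y i) le_rfl)

omit mΩ in
lemma Z_meas (x : X) {n m : ℕ} (h : n ≤ m) : Measurable[sig ξ {i | i.1 < m}] (Z ξ x n) := by
  letI := sig ξ {i | i.1 < m}
  induction n with
  | zero => exact measurable_const
  | succ n ih =>
    have h1 : Measurable fun p : Ω × (X →₀ ℕ) => step ξ n p.2 p.1 :=
      measurable_from_prod_countable_left fun z => step_meas (fun y i => by simpa using h) z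
    exact h1.comp (measurable_id.prodMk (ih (by omega)))

omit [Countable X] [DiscreteMeasurableSpace (X →₀ ℕ)] in
lemma sig_le (hm : ∀ i, Measurable (ξ i)) (S : Set (ℕ × X × ℕ)) : sig ξ S ≤ mΩ :=
  iSup₂_le fun i _ => (hm i).comap_le

variable (hm : ∀ i, Measurable (ξ i)) (hi : iIndepFun ξ P) (hl : ∀ i, P.map (ξ i) = μ i.2.1)
include hm hi hl

omit [Countable X] [IsProbabilityMeasure P] [∀ x, IsProbabilityMeasure (μ x)] in
lemma step_int (n : ℕ) (z : X →₀ ℕ) (s : X → ℝ) :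
    ∫ ω, mono s (step ξ n z ω) ∂P = mono (G μ s) z := by
  set J := z.support.sigma fun y => Finset.range (z y)
  have e : ∀ ω, mono s (step ξ n z ω) = ∏ j : J, mono s (ξ (n, j.1.1, j.1.2) ω) := fun ω => by
    rw [Finset.prod_coe_sort J fun j => mono s (ξ (n, j.1, j.2) ω), Finset.prod_sigma, step,
      Finsupp.sum, mono_sum]
    simp only [mono_sum]
  have inj : Function.Injective fun j : J => ((n, j.1.1, j.1.2) : ℕ × X × ℕ) := by
    rintro ⟨⟨a, b⟩, _⟩ ⟨⟨c, d⟩, _⟩ h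
    simp only [Prod.mk.injEq, true_and] at h
    obtain ⟨rfl, rfl⟩ := h
    rfl
  simp only [e]
  rw [(hi.precomp inj).integral_fun_prod_comp (f := fun _ => mono s) (fun j => (hm _).aemeasurable)
    fun j => Measurable.of_discrete.aestronglyMeasurable]
  have e2 : ∀ j : J, ∫ ω, mono s (ξ (n, j.1.1, j.1.2) ω) ∂P = G μ s j.1.1 := fun j => by
    rw [G, ← hl (n, j.1.1, j.1.2), integral_map (hm _).aemeasurable
      Measurable.of_discrete.aestronglyMeasurable]
  simp only [e2]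
  rw [Finset.prod_coe_sort J fun j => G μ s j.1, Finset.prod_sigma]
  simp [mono, Finsupp.prod]

lemma markov (x : X) (n : ℕ) {s : X → ℝ} (hs : s ∈ Icc (0 : X → ℝ) 1) {E : Set Ω}
    (hE : MeasurableSet[sig ξ {i | i.1 < n}] E) :
    ∫ ω in E, mono s (Z ξ x (n + 1) ω) ∂P = ∫ ω in E, mono (G μ s) (Z ξ x n ω) ∂P := by
  have hZ : ∀ k, Measurable (Z ξ x k) := fun k => (Z_meas x le_rfl).mono (sig_le hm _) le_rfl
  have hint : ∀ k {v : X → ℝ}, v ∈ Icc (0 : X → ℝ) 1 → Integrable (fun ω => mono v (Z ξ x k ω)) P :=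
    fun k v hv => (integrable_const (1 : ℝ)).mono'
      ((Measurable.of_discrete (f := mono v)).comp (hZ k)).aestronglyMeasurable
      (Eventually.of_forall fun ω => mono_norm hv _)
  have hEz : ∀ z, MeasurableSet[sig ξ {i | i.1 < n}] (E ∩ Z ξ x n ⁻¹' {z}) := fun z =>
    hE.inter (Z_meas x le_rfl (measurableSet_singleton z))
  have hU : E = ⋃ z, E ∩ Z ξ x n ⁻¹' {z} := by ext ω; simp
  have hd : Pairwise (Function.onFun Disjoint fun z => E ∩ Z ξ x n ⁻¹' {z}) := fun a b hab =>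
    disjoint_left.2 fun ω h1 h2 => hab (h1.2.symm.trans h2.2)
  rw [hU, integral_iUnion (fun z => sig_le hm _ _ (hEz z)) hd (hint _ hs).integrableOn,
    integral_iUnion (fun z => sig_le hm _ _ (hEz z)) hd (hint _ (G_mem hs)).integrableOn]
  refine tsum_congr fun z => ?_
  have hind : Indep (sig ξ {i | i.1 < n}) (sig ξ {i | i.1 = n}) P :=
    indep_iSup_of_disjoint (fun i => (hm i).comap_le) hi.iIndep
      (disjoint_left.2 fun i h1 h2 => by simp only [mem_ofPred_eq] at h1 h2; omega)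
  have hst : Measurable[sig ξ {i | i.1 = n}] (step ξ n z) := step_meas (fun _ _ => rfl) z
  rw [setIntegral_congr_fun (f := fun ω => mono s (Z ξ x (n + 1) ω))
      (g := fun ω => mono s (step ξ n z ω)) (sig_le hm _ _ (hEz z))
      (fun ω hω => by rw [← show Z ξ x n ω = z from hω.2]; rfl),
    setIntegral_congr_fun (f := fun ω => mono (G μ s) (Z ξ x n ω))
      (g := fun _ => mono (G μ s) z) (sig_le hm _ _ (hEz z))
      (fun ω hω => by rw [← show Z ξ x n ω = z from hω.2]),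
    Indep.setIntegral_eq_mul (sig_le hm _) (indep_of_indep_of_le_right hind hst.comap_le)
      (hst.mono (sig_le hm _) le_rfl).aemeasurable (hEz z) Measurable.of_discrete.aestronglyMeasurable,
    step_int hm hi hl]
  simp

lemma iter_mem {v : X → ℝ} (hv : v ∈ Icc (0 : X → ℝ) 1) (m : ℕ) : (G μ)^[m] v ∈ Icc (0 : X → ℝ) 1 := by
  induction m with
  | zero => exact hv
  | succ m ih => rw [Function.iterate_succ_apply']; exact G_mem ih

lemma gen (x : X) (m : ℕ) : ∀ {v : X → ℝ}, v ∈ Icc (0 : X → ℝ) 1 →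
    ∫ ω, mono v (Z ξ x m ω) ∂P = (G μ)^[m] v x := by
  induction m with
  | zero => intro v _; simp [Z, mono]
  | succ m ih =>
    intro v hv
    have := markov hm hi hl x m hv MeasurableSet.univ
    rw [Measure.restrict_univ] at this
    rw [this, ih (G_mem hv), Function.iterate_succ_apply]

open Classical in
lemma avoid (A : Set X) (x : X) (m k : ℕ) : ∀ {v : X → ℝ}, v ∈ Icc (0 : X → ℝ) 1 →
    ∫ ω in {ω | ∀ n, m ≤ n → n < m + k → ∀ y ∈ A, Z ξ x n ω y = 0}, mono v (Z ξ x (m + k) ω) ∂P =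
      (G μ)^[m] ((fun u y => if y ∈ A then 0 else G μ u y)^[k] v) x := by
  induction k with
  | zero =>
    intro v hv
    rw [show {ω | ∀ n, m ≤ n → n < m + 0 → ∀ y ∈ A, Z ξ x n ω y = 0} = univ from
      eq_univ_of_forall fun ω n a b => by omega, Measure.restrict_univ]
    exact gen hm hi hl x m hv
  | succ k ih =>
    intro v hv
    have hmem : (fun y => if y ∈ A then 0 else G μ v y) ∈ Icc (0 : X → ℝ) 1 := by
      constructor <;> intro y <;> simp only <;> split_ifs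
      exacts [le_rfl, (G_mem hv).1 y, zero_le_one, (G_mem hv).2 y]
    have hE : ∀ j ≤ k + 1, MeasurableSet[sig ξ {i | i.1 < m + k}]
        {ω | ∀ n, m ≤ n → n < m + j → ∀ y ∈ A, Z ξ x n ω y = 0} := fun j hj => by
      letI := sig ξ {i | i.1 < m + k}
      rw [show {ω | ∀ n, m ≤ n → n < m + j → ∀ y ∈ A, Z ξ x n ω y = 0} =
        ⋂ n, ⋂ _ : m ≤ n, ⋂ _ : n < m + j, Z ξ x n ⁻¹' {f | ∀ y ∈ A, f y = 0} by ext; simp]
      exact MeasurableSet.iInter fun n => MeasurableSet.iInter fun _ => MeasurableSet.iInter fun h =>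
        Z_meas (ξ := ξ) x (n := n) (m := m + k) (by omega) MeasurableSet.of_discrete
    rw [show Z ξ x (m + (k + 1)) = Z ξ x (m + k + 1) from rfl, markov hm hi hl x (m + k) hv (hE _ le_rfl), Function.iterate_succ_apply,
      ← ih hmem, ← integral_indicator (sig_le hm _ _ (hE _ le_rfl)),
      ← integral_indicator (sig_le hm _ _ (hE k (by omega)))]
    refine integral_congr_ae (Eventually.of_forall fun ω => ?_)
    simp only [indicator, mem_ofPred_eq, mono_kill]
    by_cases a : ∀ n, m ≤ n → n < m + k → ∀ y ∈ A, Z ξ x n ω y = 0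
    · by_cases b : ∀ y ∈ A, Z ξ x (m + k) ω y = 0
      · rw [if_pos a, if_pos b, if_pos]
        intro n h1 h2
        rcases (show n < m + k ∨ n = m + k by omega) with h | rfl
        exacts [a n h1 h, b]
      · rw [if_pos a, if_neg b, if_neg fun h => b (h _ (by omega) (by omega))]
    · rw [if_neg a, if_neg fun h => a fun n h1 h2 => h n h1 (by omega)]

omit hi hl [IsProbabilityMeasure P] [∀ x, IsProbabilityMeasure (μ x)] in
lemma ms (x : X) (n : ℕ) (S : Set (X →₀ ℕ)) : MeasurableSet (Z ξ x n ⁻¹' S) :=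
  (Z_meas x le_rfl).mono (sig_le hm _) le_rfl MeasurableSet.of_discrete

omit hm hi hl in
lemma lim_up {E : ℕ → Set Ω} (h : Monotone E) :
    Tendsto (fun n => P.real (E n)) atTop (𝓝 (P.real (⋃ n, E n))) :=
  (ENNReal.tendsto_toReal (measure_ne_top _ _)).comp (tendsto_measure_iUnion_atTop h)

omit hm hi hl in
lemma lim_down {E : ℕ → Set Ω} (h : Antitone E) (hE : ∀ n, MeasurableSet (E n)) :
    Tendsto (fun n => P.real (E n)) atTop (𝓝 (P.real (⋂ n, E n))) :=
  (ENNReal.tendsto_toReal (measure_ne_top _ _)).comp (tendsto_measure_iInter_atTop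
    (fun n => (hE n).nullMeasurableSet) h ⟨0, measure_ne_top _ _⟩)

lemma ext_eq (x : X) (k : ℕ) : (G μ)^[k] 0 x = P.real (Z ξ x k ⁻¹' {0}) := by
  rw [← gen hm hi hl x k ⟨le_rfl, zero_le_one⟩, ← integral_indicator_one (ms hm x k _)]
  refine integral_congr_ae (Eventually.of_forall fun ω => ?_)
  have := mono_kill univ 1 (Z ξ x k ω)
  simp only [mem_univ, if_true, mono_one, true_imp_iff] at this
  change mono (fun _ => 0) _ = _
  rw [this]
  by_cases h : Z ξ x k ω = 0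
  · simp [indicator, h]
  · rw [if_neg fun h' => h (Finsupp.ext fun y => h' y trivial), indicator_of_notMem (by simpa using h)]

end

section
variable {X : Type} [Countable X] [MeasurableSpace (X →₀ ℕ)] [DiscreteMeasurableSpace (X →₀ ℕ)]
  {μ : X → Measure (X →₀ ℕ)} [∀ x, IsProbabilityMeasure (μ x)]

instance : IsProbabilityMeasure (law μ) := by unfold law; infer_instance

abbrev ev (X : Type) : ℕ × X × ℕ → (ℕ × X × ℕ → X →₀ ℕ) → X →₀ ℕ := fun i ω => ω i

omit [Countable X] [DiscreteMeasurableSpace (X →₀ ℕ)] in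
lemma hm (i : ℕ × X × ℕ) : Measurable (ev X i) := measurable_pi_apply i

omit [Countable X] [DiscreteMeasurableSpace (X →₀ ℕ)] in
lemma hi : iIndepFun (ev X) (law μ) :=
  iIndepFun_infinitePi (X := fun _ => id) fun _ => measurable_id

omit [Countable X] [DiscreteMeasurableSpace (X →₀ ℕ)] in
lemma hl (i : ℕ × X × ℕ) : (law μ).map (ev X i) = μ i.2.1 :=
  Measure.infinitePi_map_eval (fun i : ℕ × X × ℕ => μ i.2.1) i

open Classical in
variable (μ) in
/-- kill on `A`, then apply the generating function -/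
noncomputable def K (A : Set X) (u : X → ℝ) : X → ℝ := fun y => if y ∈ A then 0 else G μ u y

variable (μ) in
noncomputable def rho (A : Set X) (m : ℕ) (x : X) : ℝ :=
  (law μ).real (⋂ n, ⋂ _ : m ≤ n, Z (ev X) x n ⁻¹' {f | ∀ y ∈ A, f y = 0})

omit [Countable X] in
lemma K_mem (A : Set X) {u : X → ℝ} (hu : u ∈ Icc (0 : X → ℝ) 1) : K μ A u ∈ Icc (0 : X → ℝ) 1 := by
  constructor <;> intro y <;> simp only [K] <;> split_ifs
  exacts [le_rfl, (G_mem hu).1 y, zero_le_one, (G_mem hu).2 y]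

omit [Countable X] in
lemma K_mo (A : Set X) {u v : X → ℝ} (hu : u ∈ Icc (0 : X → ℝ) 1) (hv : v ∈ Icc (0 : X → ℝ) 1)
    (h : u ≤ v) : K μ A u ≤ K μ A v := by
  intro y; simp only [K]; split_ifs
  exacts [le_rfl, G_mo hu hv h y]

omit [Countable X] in
lemma Ki_mem (A : Set X) {u : X → ℝ} (hu : u ∈ Icc (0 : X → ℝ) 1) (k : ℕ) :
    (K μ A)^[k] u ∈ Icc (0 : X → ℝ) 1 := by
  induction k with
  | zero => exact hu
  | succ k ih => rw [Function.iterate_succ_apply']; exact K_mem A ih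

omit [Countable X] in
lemma Ki_mo (A : Set X) {u v : X → ℝ} (hu : u ∈ Icc (0 : X → ℝ) 1) (hv : v ∈ Icc (0 : X → ℝ) 1)
    (h : u ≤ v) (k : ℕ) : (K μ A)^[k] u ≤ (K μ A)^[k] v := by
  induction k with
  | zero => exact h
  | succ k ih =>
    rw [Function.iterate_succ_apply', Function.iterate_succ_apply']
    exact K_mo A (Ki_mem A hu k) (Ki_mem A hv k) ih

omit [Countable X] in
lemma Gi_mem {u : X → ℝ} (hu : u ∈ Icc (0 : X → ℝ) 1) (k : ℕ) :
    (G μ)^[k] u ∈ Icc (0 : X → ℝ) 1 := by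
  induction k with
  | zero => exact hu
  | succ k ih => rw [Function.iterate_succ_apply']; exact G_mem ih

omit [Countable X] in
lemma Gi_mo {u v : X → ℝ} (hu : u ∈ Icc (0 : X → ℝ) 1) (hv : v ∈ Icc (0 : X → ℝ) 1)
    (h : u ≤ v) (k : ℕ) : (G μ)^[k] u ≤ (G μ)^[k] v := by
  induction k with
  | zero => exact h
  | succ k ih =>
    rw [Function.iterate_succ_apply', Function.iterate_succ_apply']
    exact G_mo (Gi_mem hu k) (Gi_mem hv k) ih

lemma one_mem' : (1 : X → ℝ) ∈ Icc (0 : X → ℝ) 1 := ⟨zero_le_one, le_rfl⟩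

lemma rho_lim (A : Set X) (m : ℕ) :
    Tendsto (fun k => (G μ)^[m] ((K μ A)^[k] 1)) atTop (𝓝 (rho μ A m)) := by
  refine tendsto_pi_nhds.2 fun x => ?_
  have h1 := lim_down (P := law μ) (E := fun k => ⋂ n, ⋂ _ : m ≤ n, ⋂ _ : n < m + k,
    Z (ev X) x n ⁻¹' {f | ∀ y ∈ A, f y = 0}) (fun a b hab ω hω => by
      simp only [mem_iInter] at hω ⊢
      exact fun n h1 h2 => hω n h1 (by omega))
    fun k => MeasurableSet.iInter fun n => MeasurableSet.iInter fun _ =>
      MeasurableSet.iInter fun _ => ms hm x n _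
  rw [show (⋂ k, ⋂ n, ⋂ _ : m ≤ n, ⋂ _ : n < m + k, Z (ev X) x n ⁻¹' {f | ∀ y ∈ A, f y = 0}) =
    ⋂ n, ⋂ _ : m ≤ n, Z (ev X) x n ⁻¹' {f | ∀ y ∈ A, f y = 0} by
      ext ω; simp only [mem_iInter]
      exact ⟨fun h n h1 => h (n + 1) n h1 (by omega), fun h _ n h1 _ => h n h1⟩] at h1
  refine h1.congr fun k => ?_
  have := avoid hm (hi (μ := μ)) hl A x m k (v := 1) one_mem'
  simp only [mono_one, integral_const, smul_eq_mul, mul_one, measureReal_restrict_apply_univ] at this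
  refine Eq.trans ?_ this
  congr 1
  ext; simp

omit [Countable X] [DiscreteMeasurableSpace (X →₀ ℕ)] in
lemma rho_mem (A : Set X) (m : ℕ) : rho μ A m ∈ Icc (0 : X → ℝ) 1 :=
  ⟨fun _ => measureReal_nonneg, fun _ => measureReal_le_one⟩

omit [Countable X] [DiscreteMeasurableSpace (X →₀ ℕ)] [∀ x, IsProbabilityMeasure (μ x)] in
lemma rho_zero {A : Set X} {y : X} (hy : y ∈ A) : rho μ A 0 y = 0 := by
  unfold rho
  rw [show (⋂ n, ⋂ _ : 0 ≤ n, Z (ev X) y n ⁻¹' {f | ∀ y ∈ A, f y = 0}) = ∅ from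
    eq_empty_of_forall_notMem fun ω hω => by
      have := (mem_iInter₂.1 hω 0 le_rfl) y hy
      simp [Z] at this]
  simp

lemma rho_succ (A : Set X) (m : ℕ) : rho μ A (m + 1) = G μ (rho μ A m) := by
  refine tendsto_nhds_unique (rho_lim A (m + 1)) ((G_lim (fun k => Gi_mem (Ki_mem A one_mem' k) m)
    (rho_lim A m)).congr fun k => ?_)
  rw [Function.iterate_succ_apply']

omit [Countable X] [DiscreteMeasurableSpace (X →₀ ℕ)] [∀ x, IsProbabilityMeasure (μ x)] in
lemma qq_eq (A : Set X) (x : X) : qq μ A x =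
    (law μ).real (⋃ m, ⋂ n, ⋂ _ : m ≤ n, Z (ev X) x n ⁻¹' {f | ∀ y ∈ A, f y = 0}) := by
  unfold qq; congr 1; ext; simp

omit [Countable X] [DiscreteMeasurableSpace (X →₀ ℕ)] in
lemma rho_le (A : Set X) (m : ℕ) : rho μ A m ≤ qq μ A := fun x => by
  rw [qq_eq]
  exact measureReal_mono (subset_iUnion (fun m => ⋂ n, ⋂ _ : m ≤ n,
    Z (ev X) x n ⁻¹' {f | ∀ y ∈ A, f y = 0}) m)

omit [Countable X] [DiscreteMeasurableSpace (X →₀ ℕ)] in
lemma rho_up (A : Set X) : Tendsto (rho μ A) atTop (𝓝 (qq μ A)) := by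
  refine tendsto_pi_nhds.2 fun x => ?_
  rw [qq_eq]
  refine lim_up fun a b hab ω hω => ?_
  simp only [mem_iInter] at hω ⊢
  exact fun n h => hω n (hab.trans h)

omit [Countable X] [DiscreteMeasurableSpace (X →₀ ℕ)] in
lemma qq_mem (A : Set X) : qq μ A ∈ Icc (0 : X → ℝ) 1 :=
  ⟨fun _ => measureReal_nonneg, fun _ => measureReal_le_one⟩

lemma qq_fix (A : Set X) : G μ (qq μ A) = qq μ A :=
  tendsto_nhds_unique (G_lim (rho_mem A) (rho_up A))
    (((rho_up A).comp (tendsto_add_atTop_nat 1)).congr fun m => rho_succ A m)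

omit [Countable X] [DiscreteMeasurableSpace (X →₀ ℕ)] in
lemma qq_anti {A A' : Set X} (h : A ⊆ A') : qq μ A' ≤ qq μ A := fun _ =>
  measureReal_mono fun _ hω => hω.mono fun _ hn y hy => hn y (h hy)

omit [Countable X] [DiscreteMeasurableSpace (X →₀ ℕ)] in
lemma qq_empty : qq μ ∅ = 1 := by
  funext x; simp [qq]

lemma ext_sub : Ext μ ⊆ Fix μ := by
  rintro _ ⟨A, rfl⟩; exact ⟨qq_mem A, qq_fix A⟩

omit [Countable X] in
lemma K_le_G (A : Set X) {u : X → ℝ} (hu : u ∈ Icc (0 : X → ℝ) 1) : K μ A u ≤ G μ u := by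
  intro y; simp only [K]; split_ifs
  exacts [(G_mem hu).1 y, le_rfl]

lemma qq_univ_le {s : X → ℝ} (hs : s ∈ Fix μ) : qq μ univ ≤ s := by
  refine le_of_tendsto' (rho_up univ) fun m => ?_
  induction m with
  | zero => exact fun y => (rho_zero (mem_univ y)).le.trans (hs.1.1 y)
  | succ m ih => rw [rho_succ, ← hs.2]; exact G_mo (rho_mem _ _) hs.1 ih

/-- a fixed point below the extinction vectors of an exhaustion of `{s < 1}` -/
lemma cont_sol {s : X → ℝ} (hs : s ∈ Fix μ) {A : ℕ → Set X} (hA : ∀ y, s y < 1 → ∀ᶠ n in atTop, y ∈ A n)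
    (hle : ∀ n, s ≤ qq μ (A n)) {x : X} {c : ℝ} (h0 : s x ≤ c) (h1 : ∀ n, c ≤ qq μ (A n) x) :
    ∃ v ∈ Fix μ, v x = c := by
  obtain ⟨v, hv, h2, h3⟩ := Low.global_sol hs.1 hs.2 hA fun n =>
    Low.local_sol hs.1 hs.2 (hle n) (rho_mem (A n)) (fun y hy => rho_zero hy) (rho_succ _) (rho_le _)
      (rho_up _) h0 (h1 n)
  exact ⟨v, ⟨hv, h3⟩, h2⟩

lemma cont {s : X → ℝ} (hs : s ∈ Fix μ) {A : ℕ → Set X} (hA : ∀ y, s y < 1 → ∀ᶠ n in atTop, y ∈ A n)
    (hle : ∀ n, s ≤ qq μ (A n)) (hc : (Fix μ).Countable) {x : X} {c : ℝ}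
    (h1 : ∀ n, c ≤ qq μ (A n) x) : c ≤ s x := by
  by_contra h
  push Not at h
  have : (Icc (s x) c).Countable := (hc.image fun v => v x).mono fun d hd => by
    obtain ⟨v, hv, e⟩ := cont_sol hs hA hle hd.1 fun n => hd.2.trans (h1 n)
    exact ⟨v, hv, e⟩
  have h2 := this.measure_zero volume
  simp at h2
  linarith

end

end Pool.Agent.H.MP_34b196_pr.B
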