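import Mathlib
import Pool.Agent.H.MP_34b196_pr.B

namespace Pool.Agent.H.MP_34b196_pr.B

open MeasureTheory ProbabilityTheory Filter Topology Set Pool.Agent.H.MP_34b196_pr

lemma rpow_sub_le {M t u : ℝ} (h0 : 0 ≤ M) (h1 : M ≤ 1) (ht : 1 ≤ t) (htu : t ≤ u) :
    M ^ t - M ^ u ≤ u - t := by
  rcases h0.eq_or_lt with rfl | hM
  · rw [Real.zero_rpow (by linarith), Real.zero_rpow (by linarith)]; linarith
  have a1 : M ^ u = M ^ t * M ^ (u - t) := by rw [← Real.rpow_add hM]; congr 1; ring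
  have a2 : 1 + Real.log M * (u - t) ≤ M ^ (u - t) := by
    rw [Real.rpow_def_of_pos hM]; linarith [Real.add_one_le_exp (Real.log M * (u - t))]
  have a3 : M ^ t ≤ M := by simpa using Real.rpow_le_rpow_of_exponent_ge hM h1 ht
  have a4 : -1 ≤ M * Real.log M := by
    have := Real.one_sub_inv_le_log_of_pos hM
    have := mul_le_mul_of_nonneg_left this h0
    rw [mul_sub, mul_inv_cancel₀ hM.ne'] at this
    linarith
  have a5 : Real.log M ≤ 0 := Real.log_nonpos h0 h1
  have a6 : 0 ≤ M ^ t := Real.rpow_nonneg h0 t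
  have a7 : -1 ≤ M ^ t * Real.log M := by nlinarith
  rw [a1]
  nlinarith [mul_le_mul_of_nonneg_left a2 a6, mul_le_mul_of_nonneg_right a7 (sub_nonneg.2 htu)]

variable {X : Type}

lemma mono_rpow {s : X → ℝ} (hs : 0 ≤ s) (t : ℝ) (f : X →₀ ℕ) :
    mono (fun y => s y ^ t) f = mono s f ^ t := by
  simp only [mono, Finsupp.prod]
  rw [← Real.finset_prod_rpow _ _ fun y _ => pow_nonneg (hs y) _]
  exact Finset.prod_congr rfl fun y _ => Real.rpow_pow_comm (hs y) _ _

lemma rp_mem {s : X → ℝ} (hs : s ∈ Icc (0 : X → ℝ) 1) {t : ℝ} (ht : 1 ≤ t) :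
    (fun y => s y ^ t) ∈ Icc (0 : X → ℝ) 1 :=
  ⟨fun y => Real.rpow_nonneg (hs.1 y) t, fun y => Real.rpow_le_one (hs.1 y) (hs.2 y) (by linarith)⟩

lemma mono_le_coord {s : X → ℝ} (hs : s ∈ Icc (0 : X → ℝ) 1) {f : X →₀ ℕ} {y : X} (hy : f y ≠ 0) :
    mono s f ≤ s y := by
  classical
  rw [mono, Finsupp.prod, ← Finset.mul_prod_erase _ _ (Finsupp.mem_support_iff.2 hy)]
  exact (mul_le_of_le_one_right (pow_nonneg (hs.1 y) _) (Finset.prod_le_one
    (fun z _ => pow_nonneg (hs.1 z) _) fun z _ => pow_le_one₀ (hs.1 z) (hs.2 z))).trans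
    (pow_le_of_le_one (hs.1 y) (hs.2 y) hy)

variable [Countable X] [MeasurableSpace (X →₀ ℕ)] [DiscreteMeasurableSpace (X →₀ ℕ)]
  {μ : X → Measure (X →₀ ℕ)} [∀ x, IsProbabilityMeasure (μ x)]

omit [Countable X] in
lemma jensen {s : X → ℝ} (hs : s ∈ Fix μ) {t : ℝ} (ht : 1 ≤ t) :
    (fun y => s y ^ t) ≤ G μ fun y => s y ^ t := fun x => by
  have h := (convexOn_rpow ht).map_integral_le (μ := μ x) (f := mono s)
    (Real.continuous_rpow_const (by linarith)).continuousOn isClosed_Ici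
    (Eventually.of_forall fun f => (mono_mem hs.1 f).1) (int_mono hs.1 x)
    ((int_mono (rp_mem hs.1 ht) x).congr (Eventually.of_forall fun f => mono_rpow hs.1.1 t f))
  have e : ∫ f, mono s f ∂μ x = s x := congrFun hs.2 x
  rw [e] at h
  refine h.trans (le_of_eq ?_)
  simp only [G, mono_rpow hs.1.1]

lemma intZ {v : X → ℝ} (hv : v ∈ Icc (0 : X → ℝ) 1) (x : X) (k : ℕ) :
    Integrable (fun ω => mono v (Z (ev X) x k ω)) (law μ) :=
  (integrable_const (1 : ℝ)).mono' ((Measurable.of_discrete (f := mono v)).comp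
    ((Z_meas x le_rfl).mono (sig_le hm _) le_rfl)).aestronglyMeasurable
    (Eventually.of_forall fun ω => mono_norm hv _)

lemma sq_lim {s : X → ℝ} (hs : s ∈ Fix μ) (hc : (Fix μ).Countable) (x : X) :
    Tendsto (fun m => (G μ)^[m] (fun y => s y ^ (2 : ℝ)) x) atTop (𝓝 (s x)) := by
  set F : ℝ → X → ℝ := fun t y => ⨆ m, (G μ)^[m] (fun y => s y ^ t) y with hF
  have hl : ∀ t, 1 ≤ t → Tendsto (fun m => (G μ)^[m] fun y => s y ^ t) atTop (𝓝 (F t)) := fun t ht => by
    have hmo : Monotone fun m => (G μ)^[m] fun y => s y ^ t := monotone_nat_of_le_succ fun m => by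
      rw [Function.iterate_succ_apply]
      exact Gi_mo (rp_mem hs.1 ht) (G_mem (rp_mem hs.1 ht)) (jensen hs ht) m
    exact tendsto_pi_nhds.2 fun y => tendsto_atTop_ciSup (fun a b h => hmo h y)
      ⟨1, by rintro _ ⟨m, rfl⟩; exact (Gi_mem (rp_mem hs.1 ht) m).2 y⟩
  have hfix : ∀ t, 1 ≤ t → F t ∈ Fix μ := fun t ht =>
    ⟨isClosed_Icc.mem_of_tendsto (hl t ht) (Eventually.of_forall (Gi_mem (rp_mem hs.1 ht))),
      tendsto_nhds_unique (G_lim (Gi_mem (rp_mem hs.1 ht)) (hl t ht))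
        (((hl t ht).comp (tendsto_add_atTop_nat 1)).congr fun m => Function.iterate_succ_apply' _ _ _)⟩
  have hd : ∀ t u, 1 ≤ t → t ≤ u → F u x ≤ F t x ∧ F t x - F u x ≤ u - t := fun t u ht htu => by
    have l1 := tendsto_pi_nhds.1 (hl t ht) x
    have l2 := tendsto_pi_nhds.1 (hl u (ht.trans htu)) x
    refine ⟨le_of_tendsto_of_tendsto' l2 l1 fun m => Gi_mo (rp_mem hs.1 (ht.trans htu)) (rp_mem hs.1 ht)
      (fun y => Real.rpow_le_rpow_of_exponent_ge' (hs.1.1 y) (hs.1.2 y) (by linarith) htu) m x,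
      le_of_tendsto' (l1.sub l2) fun m => ?_⟩
    rw [← gen hm (hi (μ := μ)) hl' x m (rp_mem hs.1 ht),
      ← gen hm (hi (μ := μ)) hl' x m (rp_mem hs.1 (ht.trans htu)),
      ← integral_sub (intZ (rp_mem hs.1 ht) x m) (intZ (rp_mem hs.1 (ht.trans htu)) x m)]
    refine (integral_mono ((intZ (rp_mem hs.1 ht) x m).sub (intZ (rp_mem hs.1 (ht.trans htu)) x m))
      (integrable_const (u - t)) fun ω => ?_).trans (by simp)
    simp only [mono_rpow hs.1.1]
    exact rpow_sub_le (mono_mem hs.1 _).1 (mono_mem hs.1 _).2 ht htu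
  have hco : ContinuousOn (fun t => F t x) (Icc 1 2) := by
    refine LipschitzOnWith.continuousOn (K := 1) (LipschitzOnWith.of_dist_le_mul fun t ht u hu => ?_)
    simp only [Real.dist_eq, NNReal.coe_one, one_mul]
    rcases le_total t u with h | h
    · obtain ⟨a, b⟩ := hd t u ht.1 h
      rw [abs_of_nonneg (by linarith), abs_of_nonpos (by linarith)]; linarith
    · obtain ⟨a, b⟩ := hd u t hu.1 h
      rw [abs_of_nonpos (by linarith), abs_of_nonneg (by linarith)]; linarith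
  have h1 : F 1 x = s x := by simp [hF, Function.iterate_fixed hs.2]
  have h2 : (Icc (F 2 x) (F 1 x)).Countable := (hc.image fun v => v x).mono fun d hd' => by
    obtain ⟨t, ht, e⟩ := intermediate_value_Icc' one_le_two hco hd'
    exact ⟨F t, hfix t ht.1, e⟩
  have h3 := h2.measure_zero volume
  simp only [Real.volume_Icc, ENNReal.ofReal_eq_zero] at h3
  have h4 := (hd 1 2 le_rfl one_le_two).1
  rw [show s x = F 2 x by linarith]
  exact tendsto_pi_nhds.1 (hl 2 one_le_two) x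
where hl' := B.hl (μ := μ)

lemma le_qq {s : X → ℝ} (hs : s ∈ Fix μ) (hc : (Fix μ).Countable) {ε : ℝ} (hε : 0 < ε) (hε1 : ε ≤ 1) :
    s ≤ qq μ {y | s y ≤ 1 - ε} := fun x => by
  classical
  set A := {y | s y ≤ 1 - ε}
  set s2 : X → ℝ := fun y => s y ^ (2 : ℝ)
  have m2 : s2 ∈ Icc (0 : X → ℝ) 1 := rp_mem hs.1 one_le_two
  have kill : ∀ {v : X → ℝ}, v ∈ Icc (0 : X → ℝ) 1 →
      (fun y => if y ∈ A then 0 else v y) ∈ Icc (0 : X → ℝ) 1 := fun hv => by
    constructor <;> intro y <;> simp only <;> split_ifs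
    exacts [le_rfl, hv.1 y, zero_le_one, hv.2 y]
  have step : ∀ m j, (G μ)^[m] ((K μ A)^[j] s2) x - (G μ)^[m] ((K μ A)^[j + 1] s2) x ≤
      (1 - ε) * ((G μ)^[m] ((K μ A)^[j] s) x - (G μ)^[m] ((K μ A)^[j + 1] s) x) := fun m j => by
    have a1 : (G μ)^[m] ((K μ A)^[j] fun y => if y ∈ A then 0 else s2 y) x ≤
        (G μ)^[m] ((K μ A)^[j + 1] s2) x := by
      rw [Function.iterate_succ_apply]
      refine Gi_mo (Ki_mem A (kill m2) j) (Ki_mem A (K_mem A m2) j) (Ki_mo A (kill m2) (K_mem A m2)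
        (fun y => ?_) j) m x
      simp only [K]; split_ifs
      exacts [le_rfl, jensen hs one_le_two y]
    have a2 : (K μ A)^[j + 1] s = (K μ A)^[j] fun y => if y ∈ A then 0 else s y := by
      rw [Function.iterate_succ_apply]; congr 1; funext y; simp only [K, hs.2]
    have av := fun v hv => avoid hm (hi (μ := μ)) hl A x m j (v := v) hv
    refine (sub_le_sub_left a1 _).trans ?_
    rw [a2]
    erw [← av _ m2, ← av _ (kill m2), ← av _ hs.1, ← av _ (kill hs.1)]
    rw [← integral_sub (intZ m2 x _).integrableOn (intZ (kill m2) x _).integrableOn,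
      ← integral_sub (intZ hs.1 x _).integrableOn (intZ (kill hs.1) x _).integrableOn,
      ← integral_const_mul]
    refine integral_mono ((intZ m2 x _).sub (intZ (kill m2) x _)).integrableOn
      (((intZ hs.1 x _).sub (intZ (kill hs.1) x _)).const_mul _).integrableOn fun ω => ?_
    simp only [mono_kill]
    split_ifs with h
    · simp
    · push Not at h
      obtain ⟨y, hy, hf⟩ := h
      have b1 := (mono_le_coord hs.1 hf).trans hy
      have b2 := (mono_mem hs.1 (Z (ev X) x (m + j) ω)).1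
      rw [show mono s2 _ = _ from mono_rpow hs.1.1 2 _, Real.rpow_two]
      nlinarith
  have tel : ∀ m k, (G μ)^[m] s2 x - (G μ)^[m] ((K μ A)^[k] s2) x ≤
      (1 - ε) * (s x - (G μ)^[m] ((K μ A)^[k] s) x) := fun m k => by
    induction k with
    | zero => simp [Function.iterate_fixed hs.2]
    | succ k ih => have := step m k; linarith
  have hle : s2 ≤ s := fun y => by
    simp only [s2, Real.rpow_two]; nlinarith [hs.1.1 y, hs.1.2 y, show (0 : X → ℝ) y = 0 from rfl,
      show (1 : X → ℝ) y = 1 from rfl]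
  have fin : ∀ m, ε * (s x - qq μ A x) ≤ s x - (G μ)^[m] s2 x := fun m => by
    have : ε * (s x - rho μ A m x) ≤ s x - (G μ)^[m] s2 x :=
      le_of_tendsto' (((tendsto_pi_nhds.1 (rho_lim A m) x).const_sub (s x)).const_mul ε) fun k => by
        have c1 := tel m k
        have c2 := Gi_mo (μ := μ) (Ki_mem A m2 k) (Ki_mem A hs.1 k) (Ki_mo (μ := μ) A m2 hs.1 hle k) m x
        have c3 := Gi_mo (μ := μ) (Ki_mem A hs.1 k) (Ki_mem A one_mem' k)
          (Ki_mo (μ := μ) A hs.1 one_mem' hs.1.2 k) m x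
        nlinarith
    nlinarith [rho_le (μ := μ) A m x]
  have := ge_of_tendsto' ((sq_lim hs hc x).const_sub (s x)) fin
  rw [sub_self] at this
  nlinarith

lemma exh {s : X → ℝ} (y : X) (hy : s y < 1) :
    ∀ᶠ n : ℕ in atTop, y ∈ {y | s y ≤ 1 - 1 / ((n : ℝ) + 1)} := by
  filter_upwards [tendsto_one_div_add_atTop_nhds_zero_nat.eventually
    (ge_mem_nhds (show (0 : ℝ) < 1 - s y by linarith))] with n hn
  have : 1 / ((n : ℝ) + 1) ≤ 1 - s y := hn
  change s y ≤ _
  linarith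

lemma le_qq' {s : X → ℝ} (hs : s ∈ Fix μ) (hc : (Fix μ).Countable) (n : ℕ) :
    s ≤ qq μ {y | s y ≤ 1 - 1 / ((n : ℝ) + 1)} :=
  le_qq hs hc (by positivity) (by rw [div_le_one (by positivity)]; linarith [Nat.cast_nonneg (α := ℝ) n])

lemma qq_lim {s : X → ℝ} (hs : s ∈ Fix μ) (hc : (Fix μ).Countable) :
    Tendsto (fun n : ℕ => qq μ {y | s y ≤ 1 - 1 / ((n : ℝ) + 1)}) atTop (𝓝 s) := by
  refine tendsto_pi_nhds.2 fun x => ?_
  obtain ⟨A, hA⟩ : ∃ A : ℕ → Set X, ∀ n, A n = {y | s y ≤ 1 - 1 / ((n : ℝ) + 1)} := ⟨_, fun _ => rfl⟩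
  have h1 : ∀ n, s ≤ qq μ (A n) := fun n => hA n ▸ le_qq' hs hc n
  have h2 : ∀ y, s y < 1 → ∀ᶠ n in atTop, y ∈ A n := fun y hy => by simpa only [hA] using exh y hy
  have h3 : Monotone A := fun a b hab y hy => by
    rw [hA] at hy ⊢
    refine le_trans (show s y ≤ _ from hy) ?_
    gcongr
  simp only [← hA]
  have hb : BddBelow (range fun n : ℕ => qq μ (A n) x) :=
    ⟨0, by rintro _ ⟨n, rfl⟩; exact (qq_mem _).1 x⟩
  have h := tendsto_atTop_ciInf (f := fun n : ℕ => qq μ (A n) x)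
    (fun a b hab => qq_anti (h3 hab) x) hb
  rwa [le_antisymm (cont hs h2 h1 hc (ciInf_le hb)) (le_ciInf fun n => h1 n x)] at h

theorem fix_eq_ext (hf : (Fix μ).Finite) : Fix μ = Ext μ :=
  Subset.antisymm (fun _ hs => (hf.subset ext_sub).isClosed.mem_of_tendsto (qq_lim hs hf.countable)
    (Eventually.of_forall fun _ => ⟨_, rfl⟩)) ext_sub

omit [Countable X] in
lemma irr_lt (hI : Irred μ) {s : X → ℝ} (hs : s ∈ Fix μ) (h1 : s ≠ 1) (x : X) : s x < 1 := by
  by_contra h
  refine h1 (funext fun y => ?_)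
  have hx : s x = 1 := le_antisymm (hs.1.2 x) (not_lt.1 h)
  induction hI x y with
  | refl => exact hx
  | @tail a b _ hab ih =>
    have e : ∫ f, (1 - mono s f) ∂μ a = 0 := by
      rw [integral_sub (integrable_const _) (int_mono hs.1 a)]
      have : ∫ f, mono s f ∂μ a = 1 := (congrFun hs.2 a).trans ih
      simp [this]
    rw [integral_eq_zero_iff_of_nonneg (fun f => sub_nonneg.2 (mono_mem hs.1 f).2)
      ((integrable_const _).sub (int_mono hs.1 a))] at e
    by_contra hb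
    refine hab (measure_mono_null (fun f hf => ?_) e)
    have := mono_le_coord hs.1 (y := b) hf
    have h2 : s b < 1 := lt_of_le_of_ne (hs.1.2 b) hb
    simp only [mem_compl_iff, mem_ofPred_eq, Pi.zero_apply]
    intro h3; linarith

theorem irr_fix (hI : Irred μ) (hc : (Fix μ).Countable) : Fix μ ⊆ {qq μ univ, 1} := by
  intro s hs
  by_cases h1 : s = 1
  · exact Or.inr h1
  obtain ⟨e, he⟩ := exists_injective_nat X
  refine Or.inl (le_antisymm (fun x => cont (A := fun N => {z | e z < N}) (ext_sub ⟨_, rfl⟩)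
    (fun y _ => eventually_gt_atTop (e y)) (fun N => qq_anti (subset_univ _)) hc fun N => ?_)
    (qq_univ_le hs))
  have hf : {z | e z < N}.Finite := (finite_Iio N).preimage he.injOn
  obtain ⟨n, hn⟩ := ((eventually_all_finite hf).2 fun y _ => exh y (irr_lt hI hs h1 y)).exists
  exact (le_qq' hs hc n x).trans (qq_anti hn x)

end Pool.Agent.H.MP_34b196_pr.B
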