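import Mathlib
import Pool.Agent.H.MP_34b196_pr.B

namespace Pool.Agent.H.MP_34b196_pr.B

open MeasureTheory ProbabilityTheory Filter Topology Set Pool.Agent.H.MP_34b196_pr

variable {X : Type} [MeasurableSpace (X →₀ ℕ)]

/-- `a` with probability `1 - p`, `a + b` with probability `p` -/
noncomputable def two (p : ℝ) (a b : X →₀ ℕ) : Measure (X →₀ ℕ) :=
  ENNReal.ofReal (1 - p) • Measure.dirac a + ENNReal.ofReal p • Measure.dirac (a + b)

lemma two_prob {p : ℝ} (h0 : 0 ≤ p) (h1 : p ≤ 1) (a b : X →₀ ℕ) : IsProbabilityMeasure (two p a b) :=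
  ⟨by simp [two, ← ENNReal.ofReal_add (sub_nonneg.2 h1) h0]⟩

variable [DiscreteMeasurableSpace (X →₀ ℕ)]

lemma two_int {p : ℝ} (h0 : 0 ≤ p) (h1 : p ≤ 1) (a b : X →₀ ℕ) (s : X → ℝ) :
    ∫ f, mono s f ∂two p a b = mono s a * (1 - p + p * mono s b) := by
  rw [two, integral_add_measure ((integrable_dirac (by simp)).smul_measure (by simp))
    ((integrable_dirac (by simp)).smul_measure (by simp))]
  simp [ENNReal.toReal_ofReal h0, ENNReal.toReal_ofReal (sub_nonneg.2 h1), mono_add]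
  ring

lemma two_ne {p : ℝ} (h0 : 0 < p) {a b : X →₀ ℕ} {S : Set (X →₀ ℕ)} (h : a + b ∈ S) : two p a b S ≠ 0 := by
  simp [two, h, h0]

omit [MeasurableSpace (X →₀ ℕ)] [DiscreteMeasurableSpace (X →₀ ℕ)] in
lemma mono_single (s : X → ℝ) (y : X) : mono s (Finsupp.single y 1) = s y := by simp [mono]

variable [Countable X] {μ : X → Measure (X →₀ ℕ)} [∀ x, IsProbabilityMeasure (μ x)]

lemma rho_le_G (A : Set X) : rho μ A 0 ≤ G μ (rho μ A 0) := by
  rw [← rho_succ]
  exact fun x => measureReal_mono fun ω hω => by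
    simp only [mem_iInter] at hω ⊢
    exact fun n _ => hω n (Nat.zero_le n)

lemma le_rho {A : Set X} {v : X → ℝ} (hv : v ∈ Icc (0 : X → ℝ) 1) (h : v ≤ K μ A v) : v ≤ rho μ A 0 := by
  refine ge_of_tendsto' (rho_lim A 0) fun k => ?_
  induction k with
  | zero => exact hv.2
  | succ k ih =>
    rw [Function.iterate_succ_apply']
    exact h.trans (K_mo A hv (Ki_mem A one_mem' k) ih)

/-- along a spine meeting `A` infinitely often there is no extinction in `A` -/
lemma spine {A : Set X} (e : ℕ → X) (he : ∀ u ∈ Icc (0 : X → ℝ) 1, ∀ n, G μ u (e n) ≤ u (e (n + 1)))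
    (hA : ∀ n, ∃ m ≥ n, e m ∈ A) : qq μ A (e 0) = 0 := by
  have h0 : Monotone fun n => rho μ A 0 (e n) := monotone_nat_of_le_succ fun n =>
    (rho_le_G A _).trans (he _ (rho_mem A 0) n)
  have h1 : ∀ m n, rho μ A m (e n) ≤ 0 := fun m => by
    induction m with
    | zero => intro n; obtain ⟨k, hk, h⟩ := hA n; exact (h0 hk).trans (rho_zero h).le
    | succ m ih => intro n; rw [rho_succ]; exact (he _ (rho_mem A m) n).trans (ih _)
  exact le_antisymm (le_of_tendsto' (tendsto_pi_nhds.1 (rho_up A) _) fun m => h1 m 0) ((qq_mem A).1 _)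

end Pool.Agent.H.MP_34b196_pr.B
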